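import Mathlib
import Pool.Agent.TwinSat.MaxConn

set_option autoImplicit false

namespace Pool.Agent.Results.MP_760c9a_co.LinearMaxConn

open Pool.Agent.TwinSat

/-- Linear twin-free saturation numbers. Let `H` be a finite graph such that
* for some set `X` of vertices the largest component of `H - X` is unique, has at least three
  vertices and a bridge, and no set of `|X|` vertices leaves only smaller components
  (`BridgeCond`), or
* for some set `X` of vertices `H - X` is a disjoint union of one triangle, edges and isolated
  vertices, and no set of `|X|` vertices meets all triangles (`TriangleCond`), or
* `H` has at least three vertices and its vertex connectivity equals its minimum degree, which is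
  positive (`MaxConnected`).
Then there are constants `C` and `n₀` such that for every `n ≥ n₀` there is a twin-free
`H`-saturated graph with `n` vertices and at most `C * n` edges. -/
theorem result {W : Type*} [Fintype W] (H : SimpleGraph W) [DecidableRel H.Adj]
    (h : BridgeCond H ∨ TriangleCond H ∨ (3 ≤ Fintype.card W ∧ MaxConnected H)) :
    LinearTsat H :=
  main H h

end Pool.Agent.Results.MP_760c9a_co.LinearMaxConn
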